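import Mathlib

/-!
# Coprime factorisations of Giuga numbers into primes and Giuga numbers
-/

set_option autoImplicit false

namespace Pool.Agent.Helper20_GI

open Finset

/-- `b` is a prime or a Giuga number: `b > 1` and every prime `p ∣ b` divides `b / p - 1` -/
def Block (b : ℕ) : Prop := 1 < b ∧ ∀ p : ℕ, p.Prime → p ∣ b → p ∣ b / p - 1

theorem Block.sqf {b : ℕ} (h : Block b) : Squarefree b := by
  rw [Nat.squarefree_iff_prime_squarefree]
  intro p hp hpp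
  have h1 := h.2 p hp ((dvd_mul_right p p).trans hpp)
  obtain ⟨k, rfl⟩ := hpp
  rw [mul_assoc, Nat.mul_div_cancel_left _ hp.pos] at h1
  have h2 : p ∣ p * k - (p * k - 1) := Nat.dvd_sub (dvd_mul_right p k) h1
  have hk : 0 < k := by
    rcases Nat.eq_zero_or_pos k with rfl | hk
    · have := h.1
      omega
    · exact hk
  have h3 : 0 < p * k := Nat.mul_pos hp.pos hk
  rw [show p * k - (p * k - 1) = 1 by omega] at h2
  exact hp.one_lt.ne' (Nat.dvd_one.1 h2)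

theorem dvd_pred {B : Finset ℕ} (hB : ∀ b ∈ B, Block b) (hn : Block (∏ b ∈ B, b)) {b : ℕ}
    (hb : b ∈ B) : b ∣ (∏ c ∈ B.erase b, c) - 1 := by
  have hs := (hB b hb).sqf
  have hP : 1 ≤ ∏ c ∈ B.erase b, c := by
    refine Nat.succ_le_of_lt (Finset.prod_pos fun c hc => ?_)
    have := (hB c (mem_of_mem_erase hc)).1
    omega
  have key : ∀ p ∈ b.primeFactors, p ∣ (∏ c ∈ B.erase b, c) - 1 := by
    intro p hp
    have hpp := Nat.prime_of_mem_primeFactors hp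
    have hpb := Nat.dvd_of_mem_primeFactors hp
    have h1 := (hB b hb).2 p hpp hpb
    have h2 := hn.2 p hpp (hpb.trans (dvd_prod_of_mem _ hb))
    rw [← mul_prod_erase B _ hb] at h2
    obtain ⟨u, rfl⟩ := hpb
    rw [mul_assoc, Nat.mul_div_cancel_left _ hpp.pos] at h2
    rw [Nat.mul_div_cancel_left _ hpp.pos] at h1
    have hu : 1 ≤ u := by
      rcases Nat.eq_zero_or_pos u with rfl | hu
      · have := (hB _ hb).1
        omega
      · exact hu
    have h3 : 1 ≡ u [MOD p] := (Nat.modEq_iff_dvd' hu).2 h1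
    have h4 : 1 ≡ u * ∏ c ∈ B.erase (p * u), c [MOD p] :=
      (Nat.modEq_iff_dvd' (Nat.mul_pos hu hP)).2 h2
    have h5 : 1 ≡ ∏ c ∈ B.erase (p * u), c [MOD p] := by
      have h6 := h3.mul_right (∏ c ∈ B.erase (p * u), c)
      rw [one_mul] at h6
      exact h4.trans h6.symm
    exact (Nat.modEq_iff_dvd' hP).1 h5
  have h7 := Finset.prod_primes_dvd ((∏ c ∈ B.erase b, c) - 1)
    (fun p hp => (Nat.prime_of_mem_primeFactors hp).prime) key
  rwa [Nat.prod_primeFactors_of_squarefree hs] at h7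

theorem prod_dvd {T : Finset ℕ} {z : ℕ} (hc : ∀ b ∈ T, ∀ c ∈ T, b ≠ c → Nat.Coprime b c)
    (h : ∀ b ∈ T, b ∣ z) : ∏ b ∈ T, b ∣ z := by
  induction T using Finset.induction_on with
  | empty => simp
  | insert c T hcT ih =>
    rw [prod_insert hcT]
    refine Nat.Coprime.mul_dvd_of_dvd_of_dvd ?_ (h c (mem_insert_self _ _)) (ih ?_ ?_)
    · exact Nat.Coprime.prod_right fun i hi =>
        hc c (mem_insert_self _ _) i (mem_insert_of_mem hi) fun h => hcT (h ▸ hi)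
    · exact fun b hb d hd => hc b (mem_insert_of_mem hb) d (mem_insert_of_mem hd)
    · exact fun b hb => h b (mem_insert_of_mem hb)

theorem exists_index {B : Finset ℕ} (h2 : 2 ≤ B.card) (hB : ∀ b ∈ B, Block b)
    (hn : Block (∏ b ∈ B, b)) (hc : ∀ b ∈ B, ∀ c ∈ B, b ≠ c → Nat.Coprime b c) :
    ∃ a, 1 ≤ a ∧ ∑ b ∈ B, ∏ c ∈ B.erase b, c = a * (∏ b ∈ B, b) + 1 := by
  have hP : ∀ b, 1 ≤ ∏ c ∈ B.erase b, c := by
    intro b
    refine Nat.succ_le_of_lt (Finset.prod_pos fun c hc => ?_)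
    have := (hB c (mem_of_mem_erase hc)).1
    omega
  have hS : 2 ≤ ∑ b ∈ B, ∏ c ∈ B.erase b, c := by
    have h1 := Finset.card_nsmul_le_sum B (fun b => ∏ c ∈ B.erase b, c) 1 fun b _ => hP b
    rw [smul_eq_mul, mul_one] at h1
    exact h2.trans h1
  have hd : ∏ b ∈ B, b ∣ (∑ b ∈ B, ∏ c ∈ B.erase b, c) - 1 := by
    refine prod_dvd hc fun b hb => ?_
    rw [← add_sum_erase B _ hb]
    have h3 := dvd_pred hB hn hb
    have h4 : b ∣ ∑ x ∈ B.erase b, ∏ c ∈ B.erase x, c := by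
      refine Finset.dvd_sum fun x hx => dvd_prod_of_mem _ ?_
      rw [mem_erase] at hx ⊢
      exact ⟨hx.1.symm, hb⟩
    have h5 := hP b
    rw [show (∏ c ∈ B.erase b, c) + ∑ x ∈ B.erase b, (∏ c ∈ B.erase x, c) - 1 =
      ((∏ c ∈ B.erase b, c) - 1) + ∑ x ∈ B.erase b, ∏ c ∈ B.erase x, c by omega]
    exact dvd_add h3 h4
  obtain ⟨a, ha⟩ := hd
  refine ⟨a, ?_, ?_⟩
  · rcases Nat.eq_zero_or_pos a with rfl | h
    · omega
    · exact h
  · rw [mul_comm a]
    omega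

theorem sq_one : ∀ m ∈ Finset.range 25, m ∣ 24 → ∀ r ∈ Finset.range m, Nat.gcd r m = 1 →
    (r * r) % m = 1 % m := by
  decide

theorem sq_modEq {m c : ℕ} (hm : m ∣ 24) (hc : Nat.Coprime c m) : c * c ≡ 1 [MOD m] := by
  have h0 : 0 < m := Nat.pos_of_dvd_of_pos hm (by norm_num)
  have h1 := sq_one m (mem_range.2 (Nat.lt_succ_of_le (Nat.le_of_dvd (by norm_num) hm))) hm (c % m)
    (mem_range.2 (Nat.mod_lt _ h0)) (by rw [← Nat.gcd_rec, Nat.gcd_comm] ; exact hc)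
  unfold Nat.ModEq
  rw [← h1, Nat.mul_mod]

theorem sum_modEq {B : Finset ℕ} {a m : ℕ} (hm : m ∣ 24) (hc : Nat.Coprime (∏ b ∈ B, b) m)
    (ha : ∑ b ∈ B, ∏ c ∈ B.erase b, c = a * (∏ b ∈ B, b) + 1) :
    ∑ b ∈ B, b ≡ (∏ b ∈ B, b) + a [MOD m] := by
  have h1 : ∀ b ∈ B, ∏ c ∈ B.erase b, c ≡ (∏ b ∈ B, b) * b [MOD m] := by
    intro b hb
    rw [← mul_prod_erase B _ hb]
    have h2 : Nat.Coprime b m := Nat.Coprime.coprime_dvd_left (dvd_prod_of_mem _ hb) hc
    have h3 := (sq_modEq hm h2).mul_right (∏ c ∈ B.erase b, c)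
    rw [one_mul] at h3
    rw [show b * (∏ c ∈ B.erase b, c) * b = b * b * ∏ c ∈ B.erase b, c by ring]
    exact h3.symm
  have h4 : ∑ b ∈ B, ∏ c ∈ B.erase b, c ≡ ∑ b ∈ B, (∏ b ∈ B, b) * b [MOD m] :=
    Nat.ModEq.sum h1
  rw [← mul_sum, ha] at h4
  have h5 := h4.mul_left (∏ b ∈ B, b)
  have h6 := sq_modEq hm hc
  set n := ∏ b ∈ B, b
  have h7 : n * (a * n + 1) ≡ n + a [MOD m] := by
    have h8 := (h6.mul_left a).add_left n
    rw [show n * (a * n + 1) = n + a * (n * n) by ring]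
    rwa [mul_one] at h8
  have h9 : n * (n * ∑ b ∈ B, b) ≡ ∑ b ∈ B, b [MOD m] := by
    have h10 := h6.mul_right (∑ b ∈ B, b)
    rw [one_mul, mul_assoc] at h10
    exact h10
  exact h9.symm.trans (h5.symm.trans h7)

theorem card_modEq (T : Finset ℕ) (h : ∀ b ∈ T, b % 2 = 1) :
    (∏ b ∈ T, b + T.card) % 4 = (∑ b ∈ T, b + 1) % 4 ∧ (∏ b ∈ T, b) % 2 = 1 := by
  induction T using Finset.induction_on with
  | empty => simp
  | insert c T hc ih =>
    obtain ⟨h1, h2⟩ := ih fun b hb => h b (mem_insert_of_mem hb)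
    have h3 := h c (mem_insert_self _ _)
    rw [prod_insert hc, sum_insert hc, card_insert_of_notMem hc]
    set P := ∏ b ∈ T, b
    set S := ∑ b ∈ T, b
    obtain ⟨x, hx⟩ : ∃ x, c = 2 * x + 1 := ⟨c / 2, by omega⟩
    obtain ⟨y, hy⟩ : ∃ y, P = 2 * y + 1 := ⟨P / 2, by omega⟩
    have h4 : c * P = 4 * (x * y) + 2 * x + 2 * y + 1 := by
      rw [hx, hy]
      ring
    rw [h4]
    constructor <;> omega

/-- comparison of sums of reciprocals -/
theorem sum_le_sum_of_card (B I : Finset ℕ) (t : ℕ) (ht : 0 < t) (hB : ∀ b ∈ B, b ∉ I → t ≤ b)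
    (hI : ∀ i ∈ I, i ≤ t) (h0 : ∀ i ∈ I, 0 < i) (hc : B.card ≤ I.card) :
    ∑ b ∈ B, (1 / b : ℚ) ≤ ∑ b ∈ I, (1 / b : ℚ) := by
  rw [← sum_inter_add_sum_sdiff B I, ← sum_inter_add_sum_sdiff I B, inter_comm I B]
  have htq : (0 : ℚ) < t := by exact_mod_cast ht
  have h1 : ∑ b ∈ B \ I, (1 / b : ℚ) ≤ (B \ I).card * (1 / t : ℚ) := by
    rw [← nsmul_eq_mul]
    refine Finset.sum_le_card_nsmul _ _ _ fun b hb => ?_
    rw [mem_sdiff] at hb
    exact one_div_le_one_div_of_le htq (by exact_mod_cast hB b hb.1 hb.2)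
  have h2 : (I \ B).card * (1 / t : ℚ) ≤ ∑ b ∈ I \ B, (1 / b : ℚ) := by
    rw [← nsmul_eq_mul]
    refine Finset.card_nsmul_le_sum _ _ _ fun b hb => ?_
    rw [mem_sdiff] at hb
    exact one_div_le_one_div_of_le (by exact_mod_cast h0 b hb.1) (by exact_mod_cast hI b hb.1)
  have h3 : (B \ I).card ≤ (I \ B).card := by
    have h4 := card_inter_add_card_sdiff B I
    have h5 := card_inter_add_card_sdiff I B
    rw [inter_comm I B] at h5
    omega
  have h4 : ((B \ I).card : ℚ) * (1 / t : ℚ) ≤ (I \ B).card * (1 / t : ℚ) :=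
    mul_le_mul_of_nonneg_right (by exact_mod_cast h3) (by positivity)
  linarith

end Pool.Agent.Helper20_GI
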