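import Pool.Agent.Helper20_GI.Main

/-!
# Odd Giuga numbers
-/

set_option autoImplicit false

namespace Pool.Agent.Helper20_GI

open Finset

theorem sum_recip {B : Finset ℕ} {a : ℕ} (h0 : ∀ b ∈ B, 0 < b)
    (ha : ∑ b ∈ B, ∏ c ∈ B.erase b, c = a * (∏ b ∈ B, b) + 1) :
    (a : ℚ) < ∑ b ∈ B, (1 / b : ℚ) := by
  have hn : 0 < ∏ b ∈ B, b := Finset.prod_pos fun b hb => h0 b hb
  have h1 : (∑ b ∈ B, (1 / b : ℚ)) * ((∏ b ∈ B, b : ℕ) : ℚ) =
      ((∑ b ∈ B, ∏ c ∈ B.erase b, c : ℕ) : ℚ) := by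
    rw [sum_mul, Nat.cast_sum]
    refine Finset.sum_congr rfl fun b hb => ?_
    rw [← mul_prod_erase B _ hb, Nat.cast_mul]
    have hb0 : (b : ℚ) ≠ 0 := by
      have := h0 b hb
      positivity
    field_simp
  rw [ha] at h1
  have hnq : (0 : ℚ) < ((∏ b ∈ B, b : ℕ) : ℚ) := by exact_mod_cast hn
  have h2 : (a : ℚ) * ((∏ b ∈ B, b : ℕ) : ℚ) <
      (∑ b ∈ B, (1 / b : ℚ)) * ((∏ b ∈ B, b : ℕ) : ℚ) := by
    rw [h1]
    push_cast
    linarith
  exact lt_of_mul_lt_mul_right h2 hnq.le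

theorem lt_two {B : Finset ℕ} (hB : ∀ b ∈ B, b % 2 = 1 ∧ 3 ≤ b) (hc : B.card ≤ 55) :
    ∑ b ∈ B, (1 / b : ℚ) < 2 := by
  have hinj : Function.Injective fun k : ℕ => 2 * k + 3 := fun x y h => by
    have : 2 * x + 3 = 2 * y + 3 := h
    omega
  have h1 := sum_le_sum_of_card B ((range 55).image fun k => 2 * k + 3) 112 (by norm_num)
    (by
      intro b hb hbi
      by_contra hcon
      apply hbi
      rw [mem_image]
      have := hB b hb
      exact ⟨(b - 3) / 2, mem_range.2 (by omega), by omega⟩)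
    (by
      intro i hi
      rw [mem_image] at hi
      obtain ⟨k, hk, rfl⟩ := hi
      rw [mem_range] at hk
      omega)
    (by
      intro i hi
      rw [mem_image] at hi
      obtain ⟨k, hk, rfl⟩ := hi
      omega)
    (by rw [card_image_of_injective _ hinj, card_range]; exact hc)
  refine lt_of_le_of_lt h1 ?_
  rw [sum_image fun x _ y _ h => hinj h]
  norm_num [Finset.sum_range_succ]

theorem nine {B : Finset ℕ} (hB : ∀ b ∈ B, b % 2 = 1 ∧ 3 ≤ b)
    (hc : ∀ b ∈ B, ∀ c ∈ B, b ≠ c → Nat.Coprime b c) (hs : 1 < ∑ b ∈ B, (1 / b : ℚ)) :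
    9 ≤ B.card := by
  by_contra hcon
  have hinj : Set.InjOn Nat.minFac (B : Set ℕ) := by
    intro x hx y hy hxy
    by_contra hne
    have h1 := hc x hx y hy hne
    have h2 : x.minFac ∣ Nat.gcd x y := Nat.dvd_gcd (Nat.minFac_dvd x) (by
      rw [hxy]
      exact Nat.minFac_dvd y)
    rw [h1, Nat.dvd_one] at h2
    have h3 := Nat.minFac_prime (n := x) (by have := (hB x hx).2; omega)
    exact h3.one_lt.ne' h2
  have h1 : ∑ b ∈ B, (1 / b : ℚ) ≤ ∑ p ∈ B.image Nat.minFac, (1 / p : ℚ) := by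
    rw [sum_image hinj]
    refine Finset.sum_le_sum fun b hb => ?_
    have h3 := (Nat.minFac_prime (n := b) (by have := (hB b hb).2; omega)).pos
    have h4 := Nat.minFac_le (n := b) (by have := (hB b hb).2; omega)
    exact one_div_le_one_div_of_le (by exact_mod_cast h3) (by exact_mod_cast h4)
  have h2 := sum_le_sum_of_card (B.image Nat.minFac) {3, 5, 7, 11, 13, 17, 19, 23} 24 (by norm_num)
    (by
      intro p hp hpi
      rw [mem_image] at hp
      obtain ⟨b, hb, rfl⟩ := hp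
      have h3 := Nat.minFac_prime (n := b) (by have := (hB b hb).2; omega)
      have h4 : b.minFac ≠ 2 := fun h => by
        have h5 := Nat.minFac_dvd b
        rw [h] at h5
        have := (hB b hb).1
        omega
      by_contra hlt
      revert hpi h3 h4
      generalize b.minFac = p at *
      intro hpi h3 h4
      have h5 : p < 24 := by omega
      interval_cases p <;> first | (revert h3; norm_num; done) | (exact hpi (by decide)) | omega)
    (by decide) (by decide)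
    (by
      have h3 : (B.image Nat.minFac).card ≤ B.card := card_image_le
      have h4 : ({3, 5, 7, 11, 13, 17, 19, 23} : Finset ℕ).card = 8 := by decide
      omega)
  have h3 : ∑ b ∈ ({3, 5, 7, 11, 13, 17, 19, 23} : Finset ℕ), (1 / b : ℚ) < 1 := by
    norm_num [Finset.sum_insert, Finset.sum_singleton]
  linarith

theorem odd_main {n : ℕ} (hodd : n % 2 = 1) (B : Finset ℕ) (h2 : 2 ≤ B.card)
    (hB : ∀ b ∈ B, Block b) (hc : ∀ b ∈ B, ∀ c ∈ B, b ≠ c → Nat.Coprime b c)
    (hn : n = ∏ b ∈ B, b) (hG : Block n) :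
    ∃ a, 1 ≤ a ∧ ∑ b ∈ B, n / b = a * n + 1 ∧
      (∀ m, m ∣ 24 → Nat.Coprime n m → ∑ b ∈ B, b ≡ n + a [MOD m]) ∧
      B.card % 4 = (a + 1) % 4 ∧ 10 ≤ B.card ∧ (B.card ≤ 55 → a = 1 ∧ B.card % 4 = 2) := by
  subst hn
  obtain ⟨a, ha1, ha⟩ := exists_index h2 hB hG hc
  have hb : ∀ b ∈ B, b % 2 = 1 ∧ 3 ≤ b := by
    intro b hb
    have h3 := (hB b hb).1
    have h4 : b ∣ ∏ b ∈ B, b := dvd_prod_of_mem _ hb
    have h5 : b % 2 = 1 := by
      by_contra hcon
      have h6 : 2 ∣ b := by omega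
      have := h6.trans h4
      omega
    omega
  have hodd4 : Nat.Coprime (∏ b ∈ B, b) 4 := by
    rw [show (4 : ℕ) = 2 ^ 2 by norm_num]
    exact Nat.Coprime.pow_right 2 (Nat.coprime_two_right.2 (Nat.odd_iff.2 hodd))
  have h4 := sum_modEq (m := 4) (by norm_num) hodd4 ha
  have h5 := (card_modEq B fun b h => (hb b h).1).1
  have h6 : B.card % 4 = (a + 1) % 4 := by
    unfold Nat.ModEq at h4
    omega
  have h7 := sum_recip (fun b h => by have := (hb b h).2; omega) ha
  have h8 : 9 ≤ B.card := nine hb hc (by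
    have : (1 : ℚ) ≤ a := by exact_mod_cast ha1
    linarith)
  have h9 : B.card ≤ 55 → a = 1 := by
    intro h
    have h10 := h7.trans (lt_two hb h)
    have : a < 2 := by exact_mod_cast h10
    omega
  refine ⟨a, ha1, ?_, fun m hm hcm => sum_modEq hm hcm ha, h6, ?_, fun h => ⟨h9 h, ?_⟩⟩
  · rw [← ha]
    refine Finset.sum_congr rfl fun b h => ?_
    rw [← mul_prod_erase B _ h]
    exact Nat.mul_div_cancel_left _ (by have := (hb b h).2; omega)
  · by_contra hcon
    have := h9 (by omega)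
    omega
  · have := h9 h
    omega

end Pool.Agent.Helper20_GI
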